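import Pool.Agent.ZH16.TIG.Conj
import Pool.Agent.Y842.CX.Sep

set_option autoImplicit false

/-! Topological invariable generation of compact groups. -/

namespace Pool.Agent.ZH16.TIG

open Filter Topology

/-- Jordan: a proper subgroup of a finite group does not meet all conjugacy classes. -/
theorem jordan (F : Type) [Group F] [Finite F] (H : Subgroup F)
    (h : ∀ x : F, ∃ y : F, y * x * y⁻¹ ∈ H) : H = ⊤ := by
  classical
  have : Fintype F := Fintype.ofFinite F
  have : Fintype (F ⧸ H) := Fintype.ofFinite _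
  have : Fintype (Quotient (MulAction.orbitRel F (F ⧸ H))) := Fintype.ofFinite _
  have h1 := MulAction.sum_card_fixedBy_eq_card_orbits_mul_card_group F (F ⧸ H)
  have h2 : Fintype.card (Quotient (MulAction.orbitRel F (F ⧸ H))) = 1 := by
    rw [Fintype.card_eq_one_iff_nonempty_unique]
    have hss : Subsingleton (Quotient (MulAction.orbitRel F (F ⧸ H))) :=
      (MulAction.pretransitive_iff_subsingleton_quotient F (F ⧸ H)).1 inferInstance
    exact ⟨⟨⟨Quotient.mk _ ((1 : F) : F ⧸ H)⟩, fun a => Subsingleton.elim _ _⟩⟩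
  rw [h2, one_mul] at h1
  have h3 : ∀ g : F, 1 ≤ Fintype.card (MulAction.fixedBy (F ⧸ H) g) := by
    intro g
    rw [Nat.one_le_iff_ne_zero, ← Nat.pos_iff_ne_zero, Fintype.card_pos_iff]
    obtain ⟨y, hy⟩ := h g
    refine ⟨⟨((y⁻¹ : F) : F ⧸ H), ?_⟩⟩
    rw [MulAction.mem_fixedBy]
    show ((g * y⁻¹ : F) : F ⧸ H) = ((y⁻¹ : F) : F ⧸ H)
    rw [eq_comm, QuotientGroup.eq]
    simpa [mul_assoc] using hy
  have h4 : Fintype.card (MulAction.fixedBy (F ⧸ H) (1 : F)) = Fintype.card (F ⧸ H) := by
    have : MulAction.fixedBy (F ⧸ H) (1 : F) = Set.univ := by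
      ext x; simp
    rw [Fintype.card_congr (Equiv.setCongr this), Fintype.card_setUniv]
  have h5 : Fintype.card (F ⧸ H) ≤ 1 := by
    by_contra hcon
    push Not at hcon
    have h6 : ∑ g : F, 1 < ∑ g : F, Fintype.card (MulAction.fixedBy (F ⧸ H) g) := by
      apply Finset.sum_lt_sum (fun g _ => h3 g)
      exact ⟨1, Finset.mem_univ _, by rw [h4]; exact hcon⟩
    rw [h1] at h6
    simp at h6
  have : Subsingleton (F ⧸ H) := Fintype.card_le_one_iff_subsingleton.1 h5
  exact QuotientGroup.subgroup_eq_top_of_subsingleton H this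

section

variable {G : Type} [Group G] [TopologicalSpace G] [IsTopologicalGroup G] [CompactSpace G]
  [T2Space G]

set_option linter.unusedSectionVars false

/-- Groups that are (connected abelian)-by-profinite are topologically invariably generated. -/
theorem tig_of_abelian (N : Subgroup G) (hN : N.Normal) (hNc : IsClosed (N : Set G))
    (hNa : ∀ a ∈ N, ∀ b ∈ N, a * b = b * a) (hQ : TotallyDisconnectedSpace (G ⧸ N))
    (D : Subgroup G) (hD : IsClosed (D : Set G)) (h : ∀ g : G, ∃ x : G, x * g * x⁻¹ ∈ D) :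
    D = ⊤ := by
  have hT2 : T2Space (G ⧸ N) := by
    have := hNc
    infer_instance
  -- step 1
  obtain ⟨E, hE⟩ : ∃ E : Subgroup (G ⧸ N), E = D.map (QuotientGroup.mk' N) := ⟨_, rfl⟩
  have hEc : IsClosed (E : Set (G ⧸ N)) := by
    rw [hE, Subgroup.coe_map]
    refine (hD.isCompact.image ?_).isClosed
    exact QuotientGroup.continuous_mk
  have hEtop : E = ⊤ := by
    rw [eq_top_iff]
    intro q _
    by_contra hq
    have hO : IsOpen {x : G ⧸ N | q * x ∉ E} := by
      have h1 : IsOpen ((E : Set (G ⧸ N))ᶜ) := hEc.isOpen_compl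
      exact h1.preimage (continuous_const.mul continuous_id)
    obtain ⟨W, hW⟩ := ProfiniteGrp.exist_openNormalSubgroup_sub_open_nhds_of_one hO
      (by simpa using hq)
    have hWn : (W.toSubgroup).Normal := W.isNormal'
    have hfin : Finite ((G ⧸ N) ⧸ W.toSubgroup) :=
      Subgroup.quotient_finite_of_isOpen W.toSubgroup W.isOpen'
    have hJ := jordan ((G ⧸ N) ⧸ W.toSubgroup) (E.map (QuotientGroup.mk' W.toSubgroup)) (by
      intro x
      obtain ⟨x, rfl⟩ := QuotientGroup.mk'_surjective _ x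
      obtain ⟨x, rfl⟩ := QuotientGroup.mk'_surjective _ x
      obtain ⟨y, hy⟩ := h x
      refine ⟨QuotientGroup.mk' _ (QuotientGroup.mk' _ y), ?_⟩
      rw [← map_mul, ← map_mul, ← map_inv, ← map_inv, ← map_mul, ← map_mul]
      exact Subgroup.mem_map_of_mem _ (hE ▸ Subgroup.mem_map_of_mem _ hy))
    have hq' : QuotientGroup.mk' W.toSubgroup q ∈ E.map (QuotientGroup.mk' W.toSubgroup) := by
      rw [hJ]; trivial
    obtain ⟨e, he, heq⟩ := hq'
    have h2 : q⁻¹ * e ∈ W.toSubgroup := by
      have := (QuotientGroup.eq (s := W.toSubgroup)).1 heq.symm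
      exact this
    have h3 := hW h2
    simp only [Set.mem_ofPred_eq, mul_inv_cancel_left] at h3
    exact h3 he
  have hcover : ∀ g : G, ∃ d ∈ D, ∃ m ∈ N, g = d * m := by
    intro g
    have h1 : QuotientGroup.mk' N g ∈ E := by rw [hEtop]; trivial
    rw [hE] at h1
    obtain ⟨d, hd, hdg⟩ := h1
    have h2 : d⁻¹ * g ∈ N := (QuotientGroup.eq (s := N)).1 hdg
    exact ⟨d, hd, d⁻¹ * g, h2, by group⟩
  -- step 2
  have hND : N ≤ D := by
    intro m hm
    obtain ⟨x, hx⟩ := h m
    obtain ⟨d, hd, m', hm', rfl⟩ := hcover x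
    have h1 : d * m' * m * (d * m')⁻¹ = d * m * d⁻¹ := by
      have h2 := hNa m' hm' m hm
      calc d * m' * m * (d * m')⁻¹ = d * (m' * m) * m'⁻¹ * d⁻¹ := by group
        _ = d * (m * m') * m'⁻¹ * d⁻¹ := by rw [h2]
        _ = _ := by group
    rw [h1] at hx
    have h3 := D.mul_mem (D.mul_mem (D.inv_mem hd) hx) hd
    simpa [mul_assoc] using h3
  rw [eq_top_iff]
  intro g _
  obtain ⟨d, hd, m, hm, rfl⟩ := hcover g
  exact D.mul_mem hd (hND hm)

end


section

variable {G : Type} [Group G] [TopologicalSpace G] [IsTopologicalGroup G] [CompactSpace G]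
  [T2Space G]

open Pool.Agent.E8helper46.FL
open scoped Matrix.Norms.Operator

/-- In a topologically invariably generated compact group the connected component of `1` is
commutative. -/
theorem abelian_of_tig (h : ∀ D : Subgroup G, IsClosed (D : Set G) →
    (∀ g : G, ∃ x : G, x * g * x⁻¹ ∈ D) → D = ⊤) :
    ∀ a ∈ Subgroup.connectedComponentOfOne G, ∀ b ∈ Subgroup.connectedComponentOfOne G,
      a * b = b * a := by
  intro a ha b hb
  by_contra hab
  obtain ⟨r, ρ, hρ, hne⟩ := Pool.Agent.Y842.CX.separated_of_compact G (a * b) (b * a) hab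
  obtain ⟨φ, hφ⟩ : ∃ φ : G →* (Matrix (Fin r) (Fin r) ℂ)ˣ, φ = Unitary.toUnits.comp ρ := ⟨_, rfl⟩
  have hφv : ∀ g, ((φ g : (Matrix (Fin r) (Fin r) ℂ)ˣ) : Matrix (Fin r) (Fin r) ℂ) =
      (ρ g : Matrix (Fin r) (Fin r) ℂ) := by
    intro g; rw [hφ]; rfl
  have hφc : Continuous φ := by
    rw [Units.continuous_iff]
    constructor
    · have : (Units.val ∘ φ) = fun g => (ρ g : Matrix (Fin r) (Fin r) ℂ) := funext hφv
      rw [this]
      exact continuous_subtype_val.comp hρ
    · have : (fun g => ((φ g)⁻¹ : (Matrix (Fin r) (Fin r) ℂ)ˣ).val) =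
          fun g => (ρ g⁻¹ : Matrix (Fin r) (Fin r) ℂ) := by
        funext g
        rw [← map_inv, hφv]
      rw [this]
      exact continuous_subtype_val.comp (hρ.comp continuous_inv)
  have hφne : φ (a * b) ≠ φ (b * a) := by
    intro h'
    apply hne
    apply Subtype.ext
    rw [← hφv, ← hφv, h']
  obtain ⟨D, hDdef⟩ : ∃ D : Subgroup (Matrix (Fin r) (Fin r) ℂ)ˣ, D = φ.range := ⟨_, rfl⟩
  have hDc : IsCompact (D : Set (Matrix (Fin r) (Fin r) ℂ)ˣ) := by
    rw [hDdef, MonoidHom.coe_range]
    exact isCompact_range hφc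
  have hT2 : T2Space (Matrix (Fin r) (Fin r) ℂ)ˣ := inferInstance
  have hD : IsClosed (D : Set (Matrix (Fin r) (Fin r) ℂ)ˣ) := hDc.isClosed
  have hU : ∀ u ∈ D, (u : Matrix (Fin r) (Fin r) ℂ).conjTranspose *
      (u : Matrix (Fin r) (Fin r) ℂ) = 1 := by
    rw [hDdef]
    rintro _ ⟨g, rfl⟩
    rw [hφv]
    exact Matrix.mem_unitaryGroup_iff'.1 (ρ g).2
  by_cases hna : ∃ X ∈ lieAlg D hD, ∃ Y ∈ lieAlg D hD, br X Y ≠ 0
  · obtain ⟨H, hH, ⟨u, hu, huH⟩, hconj⟩ := exists_subgroup D hD hU hDc hna
    have h1 := h (H.comap φ) (hH.preimage hφc) (by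
      intro g
      obtain ⟨x, hx, hxg⟩ := hconj (φ g) (by rw [hDdef]; exact ⟨g, rfl⟩)
      rw [hDdef] at hx
      obtain ⟨y, rfl⟩ := hx
      refine ⟨y, ?_⟩
      rw [Subgroup.mem_comap, map_mul, map_mul, map_inv]
      exact hxg)
    rw [hDdef] at hu
    obtain ⟨g, rfl⟩ := hu
    apply huH
    have : g ∈ H.comap φ := by rw [h1]; trivial
    exact this
  · push Not at hna
    obtain ⟨S, hS⟩ : ∃ S : Set (Matrix (Fin r) (Fin r) ℂ)ˣ,
        S = ex '' (lieAlg D hD : Set (Matrix (Fin r) (Fin r) ℂ)) := ⟨_, rfl⟩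
    obtain ⟨P, hP⟩ : ∃ P : Subgroup G, P = (Subgroup.closure S).comap φ := ⟨_, rfl⟩
    have hPo : IsOpen (P : Set G) := by
      apply Subgroup.isOpen_of_mem_nhds P (g := 1)
      have h1 := (hφc.tendsto 1)
      rw [map_one] at h1
      filter_upwards [h1.eventually (near_one D hD)] with g hg
      obtain ⟨X, hX, hXg⟩ := hg (by rw [hDdef]; exact ⟨g, rfl⟩)
      rw [hP]
      show φ g ∈ Subgroup.closure S
      rw [hXg, hS]
      exact Subgroup.subset_closure ⟨X, hX, rfl⟩
    have hPcl : IsClopen (P : Set G) := ⟨P.isClosed_of_isOpen hPo, hPo⟩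
    have hsub : ∀ x ∈ Subgroup.connectedComponentOfOne G, x ∈ P := by
      intro x hx
      exact hPcl.connectedComponent_subset P.one_mem hx
    have hcomm : ∀ x ∈ Subgroup.closure S, ∀ y ∈ Subgroup.closure S, x * y = y * x := by
      have h1 : S ⊆ (Subgroup.centralizer S : Set (Matrix (Fin r) (Fin r) ℂ)ˣ) := by
        rw [hS]
        rintro _ ⟨X, hX, rfl⟩
        rw [SetLike.mem_coe, Subgroup.mem_centralizer_iff]
        rintro _ ⟨Y, hY, rfl⟩
        have h2 : Commute X Y := by
          have := hna X hX Y hY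
          exact sub_eq_zero.1 this
        rw [← ex_add h2, ← ex_add h2.symm, add_comm]
      have h2 : Subgroup.closure S ≤ Subgroup.centralizer S := (Subgroup.closure_le _).2 h1
      intro x hx y hy
      have h3 : S ⊆ (Subgroup.centralizer (Subgroup.closure S : Set (Matrix (Fin r) (Fin r) ℂ)ˣ) :
          Set (Matrix (Fin r) (Fin r) ℂ)ˣ) := by
        intro s hs
        rw [SetLike.mem_coe, Subgroup.mem_centralizer_iff]
        intro z hz
        exact ((Subgroup.mem_centralizer_iff.1 (h2 hz)) s hs).symm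
      have h4 : Subgroup.closure S ≤
          Subgroup.centralizer (Subgroup.closure S : Set (Matrix (Fin r) (Fin r) ℂ)ˣ) :=
        (Subgroup.closure_le _).2 h3
      exact (Subgroup.mem_centralizer_iff.1 (h4 hy)) x hx
    have h1 := hsub a ha
    have h2 := hsub b hb
    rw [hP] at h1 h2
    apply hφne
    rw [map_mul, map_mul]
    exact hcomm _ h1 _ h2

/-- the connected component of `1` is a closed connected normal subgroup with totally
disconnected quotient -/
theorem comp_props : (Subgroup.connectedComponentOfOne G).Normal ∧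
    IsClosed (Subgroup.connectedComponentOfOne G : Set G) ∧
    IsConnected (Subgroup.connectedComponentOfOne G : Set G) ∧
    TotallyDisconnectedSpace (G ⧸ Subgroup.connectedComponentOfOne G) := by
  have hN : (Subgroup.connectedComponentOfOne G).Normal := by
    refine ⟨fun a ha g => ?_⟩
    have hc : Continuous fun x : G => g * x * g⁻¹ := by fun_prop
    have h1 := hc.mapsTo_connectedComponent 1
    have h2 : g * (1 : G) * g⁻¹ = 1 := by group
    have h3 := h1 ha
    simp only [h2] at h3
    exact h3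
  have hcl : IsClosed (Subgroup.connectedComponentOfOne G : Set G) := isClosed_connectedComponent
  have hcon : IsConnected (Subgroup.connectedComponentOfOne G : Set G) :=
    isConnected_connectedComponent
  refine ⟨hN, hcl, hcon, ?_⟩
  have hnorm := hN
  rw [totallyDisconnectedSpace_iff_connectedComponent_one]
  have hco : Topology.IsCoinducing
      (QuotientGroup.mk : G → G ⧸ Subgroup.connectedComponentOfOne G) :=
    (QuotientGroup.isQuotientMap_mk _).isCoinducing
  have h1 := hco.image_connectedComponent (by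
    intro y
    obtain ⟨y, rfl⟩ := QuotientGroup.mk_surjective y
    have h2 : (QuotientGroup.mk : G → G ⧸ Subgroup.connectedComponentOfOne G) ⁻¹'
        {(y : G ⧸ Subgroup.connectedComponentOfOne G)} =
        (fun x => y * x) '' (Subgroup.connectedComponentOfOne G : Set G) := by
      ext x
      rw [Set.mem_preimage, Set.mem_singleton_iff, eq_comm, QuotientGroup.eq, Set.mem_image]
      constructor
      · intro hx
        exact ⟨y⁻¹ * x, hx, by group⟩
      · rintro ⟨z, hz, rfl⟩
        simpa using hz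
    rw [h2]
    exact hcon.image _ (by fun_prop)) (1 : G)
  rw [← QuotientGroup.mk_one, ← h1]
  ext q
  constructor
  · rintro ⟨x, hx, rfl⟩
    rw [Set.mem_singleton_iff, eq_comm, QuotientGroup.eq]
    rw [inv_one, one_mul]
    exact hx
  · rintro rfl
    exact ⟨1, mem_connectedComponent, rfl⟩

end

/-- **Topological invariable generation of compact groups.** -/
theorem tig_iff (G : Type) [Group G] [TopologicalSpace G] [IsTopologicalGroup G] [CompactSpace G]
      [T2Space G] :
      (∀ f : G → G,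
          (Subgroup.closure (Set.range (fun x : G => f x * x * (f x)⁻¹))).topologicalClosure = ⊤) ↔
        ∃ N : Subgroup G, N.Normal ∧ IsClosed (N : Set G) ∧ IsConnected (N : Set G) ∧
          (∀ a ∈ N, ∀ b ∈ N, a * b = b * a) ∧ TotallyDisconnectedSpace (G ⧸ N) := by
  constructor
  · intro h
    have h1 : ∀ D : Subgroup G, IsClosed (D : Set G) →
        (∀ g : G, ∃ x : G, x * g * x⁻¹ ∈ D) → D = ⊤ := by
      intro D hD hx
      choose f hf using hx
      have h2 := h f
      rw [eq_top_iff, ← h2]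
      apply Subgroup.topologicalClosure_minimal _ _ hD
      rw [Subgroup.closure_le]
      rintro _ ⟨x, rfl⟩
      exact hf x
    obtain ⟨h3, h4, h5, h6⟩ := comp_props (G := G)
    exact ⟨_, h3, h4, h5, abelian_of_tig h1, h6⟩
  · rintro ⟨N, hN, hNc, -, hNa, hQ⟩ f
    refine tig_of_abelian N hN hNc hNa hQ _ (Subgroup.isClosed_topologicalClosure _) ?_
    intro g
    exact ⟨f g, Subgroup.le_topologicalClosure _ (Subgroup.subset_closure ⟨g, rfl⟩)⟩

end Pool.Agent.ZH16.TIG
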