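import Pool.Agent.ZH16.TIG.Core

set_option autoImplicit false

/-! Closed groups of unitary matrices: a proper closed subgroup meeting all conjugacy classes. -/

namespace Pool.Agent.ZH16.TIG

open Matrix Filter Topology NormedSpace
open Pool.Agent.E8helper46.FL

set_option linter.unusedSectionVars false

variable {n : ℕ}

theorem cj_cont (Y : Matrix (Fin n) (Fin n) ℂ) :
    Continuous fun u : Matrix (Fin n) (Fin n) ℂ => cj u Y := by
  unfold cj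
  exact (continuous_id.matrix_mul continuous_const).matrix_mul
        continuous_id.matrix_conjTranspose

open scoped Matrix.Norms.Operator

theorem cj_cont_units (Y : Matrix (Fin n) (Fin n) ℂ) :
    Continuous fun u : (Matrix (Fin n) (Fin n) ℂ)ˣ => cj (u : Matrix (Fin n) (Fin n) ℂ) Y :=
  (cj_cont Y).comp Units.continuous_val

theorem exp_star (X : Matrix (Fin n) (Fin n) ℂ) : (exp X)ᴴ = exp Xᴴ :=
  (Matrix.exp_conjTranspose X).symm

theorem rf_cont_right (X : Matrix (Fin n) (Fin n) ℂ) :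
    Continuous fun Y : Matrix (Fin n) (Fin n) ℂ => rf X Y :=
  LinearMap.continuous_of_finiteDimensional (rf X)

section

variable (D : Subgroup (Matrix (Fin n) (Fin n) ℂ)ˣ)
  (hD : IsClosed (D : Set (Matrix (Fin n) (Fin n) ℂ)ˣ))
  (hU : ∀ u ∈ D, (u : Matrix (Fin n) (Fin n) ℂ)ᴴ * (u : Matrix (Fin n) (Fin n) ℂ) = 1)

include hU

theorem inv_eq_star {u : (Matrix (Fin n) (Fin n) ℂ)ˣ} (hu : u ∈ D) :
    ((u⁻¹ : (Matrix (Fin n) (Fin n) ℂ)ˣ) : Matrix (Fin n) (Fin n) ℂ) =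
      (u : Matrix (Fin n) (Fin n) ℂ)ᴴ := by
  have h1 := hU u hu
  calc ((u⁻¹ : (Matrix (Fin n) (Fin n) ℂ)ˣ) : Matrix (Fin n) (Fin n) ℂ)
      = 1 * ((u⁻¹ : (Matrix (Fin n) (Fin n) ℂ)ˣ) : Matrix (Fin n) (Fin n) ℂ) := by
        rw [Matrix.one_mul]
    _ = ((u : Matrix (Fin n) (Fin n) ℂ)ᴴ * (u : Matrix (Fin n) (Fin n) ℂ)) *
        ((u⁻¹ : (Matrix (Fin n) (Fin n) ℂ)ˣ) : Matrix (Fin n) (Fin n) ℂ) := by rw [h1]
    _ = _ := by rw [Matrix.mul_assoc, Units.mul_inv, Matrix.mul_one]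

theorem cj_unit {u : (Matrix (Fin n) (Fin n) ℂ)ˣ} (hu : u ∈ D) (X : Matrix (Fin n) (Fin n) ℂ) :
    cj (u : Matrix (Fin n) (Fin n) ℂ) X =
      (u : Matrix (Fin n) (Fin n) ℂ) * X *
        ((u⁻¹ : (Matrix (Fin n) (Fin n) ℂ)ˣ) : Matrix (Fin n) (Fin n) ℂ) := by
  rw [inv_eq_star D hU hu]
  rfl

theorem lie_skew {X : Matrix (Fin n) (Fin n) ℂ} (hX : X ∈ lieAlg D hD) : Xᴴ = -X := by
  have h1 : ∀ t : ℝ, exp (t • Xᴴ) * exp (t • X) = 1 := by
    intro t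
    have h2 : (exp (t • X))ᴴ * exp (t • X) = 1 := hU _ (hX t)
    rw [exp_star, conjTranspose_smul] at h2
    simpa using h2
  have h2 : HasDerivAt (fun t : ℝ => exp (t • Xᴴ) * exp (t • X)) (Xᴴ + X) 0 := by
    have h3 := (ex_deriv Xᴴ).mul (ex_deriv X)
    rw [zero_smul, exp_zero, zero_smul, exp_zero, mul_one, one_mul] at h3
    exact h3
  have h3 : (fun t : ℝ => exp (t • Xᴴ) * exp (t • X)) = fun _ => 1 := funext h1
  rw [h3] at h2
  have h4 := h2.unique (hasDerivAt_const (0 : ℝ) (1 : Matrix (Fin n) (Fin n) ℂ))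
  exact eq_neg_of_add_eq_zero_left h4

theorem lie_cj {X : Matrix (Fin n) (Fin n) ℂ} (hX : X ∈ lieAlg D hD)
    {u : (Matrix (Fin n) (Fin n) ℂ)ˣ} (hu : u ∈ D) :
    cj (u : Matrix (Fin n) (Fin n) ℂ) X ∈ lieAlg D hD := by
  rw [cj_unit D hU hu]
  exact conj_mem_lieAlg hX hu

theorem lie_cj' {X : Matrix (Fin n) (Fin n) ℂ} (hX : X ∈ lieAlg D hD)
    {u : (Matrix (Fin n) (Fin n) ℂ)ˣ} (hu : u ∈ D) :
    cj (u : Matrix (Fin n) (Fin n) ℂ)ᴴ X ∈ lieAlg D hD := by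
  rw [← inv_eq_star D hU hu]
  exact lie_cj D hD hU hX (D.inv_mem hu)

omit hU in
theorem lie_br {X Y : Matrix (Fin n) (Fin n) ℂ} (hX : X ∈ lieAlg D hD) (hY : Y ∈ lieAlg D hD) :
    br X Y ∈ lieAlg D hD := by
  have hcl : IsClosed ((lieAlg D hD : Submodule ℝ (Matrix (Fin n) (Fin n) ℂ)) :
      Set (Matrix (Fin n) (Fin n) ℂ)) := Submodule.closed_of_finiteDimensional _
  refine bracket_mem _ hcl X Y hY (Eventually.of_forall fun t => ?_)
  have := conj_mem_lieAlg hY (hX t)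
  exact this

theorem cj_cj {u v : (Matrix (Fin n) (Fin n) ℂ)ˣ} (X : Matrix (Fin n) (Fin n) ℂ) :
    cj (u : Matrix (Fin n) (Fin n) ℂ) (cj (v : Matrix (Fin n) (Fin n) ℂ) X) =
      cj ((u * v : (Matrix (Fin n) (Fin n) ℂ)ˣ) : Matrix (Fin n) (Fin n) ℂ) X := by
  unfold cj
  rw [Units.val_mul, conjTranspose_mul]
  noncomm_ring

theorem cj_inv_cj {u : (Matrix (Fin n) (Fin n) ℂ)ˣ} (hu : u ∈ D) (X : Matrix (Fin n) (Fin n) ℂ) :
    cj (u : Matrix (Fin n) (Fin n) ℂ)ᴴ (cj (u : Matrix (Fin n) (Fin n) ℂ) X) = X := by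
  unfold cj
  rw [conjTranspose_conjTranspose]
  have h1 := hU u hu
  calc (u : Matrix (Fin n) (Fin n) ℂ)ᴴ * ((u : Matrix (Fin n) (Fin n) ℂ) * X *
        (u : Matrix (Fin n) (Fin n) ℂ)ᴴ) * (u : Matrix (Fin n) (Fin n) ℂ)
      = ((u : Matrix (Fin n) (Fin n) ℂ)ᴴ * (u : Matrix (Fin n) (Fin n) ℂ)) * X *
        ((u : Matrix (Fin n) (Fin n) ℂ)ᴴ * (u : Matrix (Fin n) (Fin n) ℂ)) := by noncomm_ring
    _ = X := by rw [h1, Matrix.one_mul, Matrix.mul_one]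

theorem cj_cj_inv {u : (Matrix (Fin n) (Fin n) ℂ)ˣ} (hu : u ∈ D) (X : Matrix (Fin n) (Fin n) ℂ) :
    cj (u : Matrix (Fin n) (Fin n) ℂ) (cj (u : Matrix (Fin n) (Fin n) ℂ)ᴴ X) = X := by
  have h1 := cj_inv_cj D hU (D.inv_mem hu) X
  rw [inv_eq_star D hU hu, conjTranspose_conjTranspose] at h1
  exact h1

/-- Conjugacy of the self-centralizing commutative subspaces. -/
theorem conj_cart (hDc : IsCompact (D : Set (Matrix (Fin n) (Fin n) ℂ)ˣ))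
    {t t' : Submodule ℝ (Matrix (Fin n) (Fin n) ℂ)} (ht : IsCart (lieAlg D hD) t)
    (ht' : IsCart (lieAlg D hD) t') :
    ∃ x ∈ D, ∀ X, X ∈ t' ↔ cj (x : Matrix (Fin n) (Fin n) ℂ) X ∈ t := by
  have hsk : ∀ X ∈ lieAlg D hD, Xᴴ = -X := fun X hX => lie_skew D hD hU hX
  obtain ⟨X, hX, hXr⟩ := ht.regular _ hsk
  obtain ⟨Y, hY, hYr⟩ := ht'.regular _ hsk
  have hcont : Continuous fun u : (Matrix (Fin n) (Fin n) ℂ)ˣ =>
      rf X (cj (u : Matrix (Fin n) (Fin n) ℂ) Y) := (rf_cont_right X).comp (cj_cont_units Y)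
  obtain ⟨x, hxD, hx⟩ := hDc.exists_isMaxOn ⟨1, D.one_mem⟩ hcont.continuousOn
  obtain ⟨Y', hY'⟩ : ∃ Y', Y' = cj (x : Matrix (Fin n) (Fin n) ℂ) Y := ⟨_, rfl⟩
  have hY'k : Y' ∈ lieAlg D hD := by
    rw [hY']; exact lie_cj D hD hU (ht'.1 hY) hxD
  have hcrit : ∀ Z ∈ lieAlg D hD, rf X (br Z Y') = 0 := by
    intro Z hZ
    obtain ⟨L, hL⟩ : ∃ L : Matrix (Fin n) (Fin n) ℂ →L[ℝ] ℝ, ∀ W, L W = rf X W :=
      ⟨LinearMap.toContinuousLinearMap (rf X), fun W => rfl⟩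
    have h1 : HasDerivAt (fun s : ℝ => L (exp (s • Z) * Y' * exp (-(s • Z))))
        (L (Z * Y' - Y' * Z)) 0 :=
      (L.hasFDerivAt.comp_hasDerivAt (0 : ℝ) (conj_deriv Z Y'))
    have h2 : IsLocalMax (fun s : ℝ => L (exp (s • Z) * Y' * exp (-(s • Z)))) 0 := by
      refine Eventually.of_forall fun s => ?_
      show L (exp (s • Z) * Y' * exp (-(s • Z))) ≤
        L (exp ((0 : ℝ) • Z) * Y' * exp (-((0 : ℝ) • Z)))
      rw [hL, hL]
      have h3 : ex (s • Z) * x ∈ D := D.mul_mem (hZ s) hxD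
      have h4 := hx h3
      have h5 : cj ((ex (s • Z) * x : (Matrix (Fin n) (Fin n) ℂ)ˣ) : Matrix (Fin n) (Fin n) ℂ) Y =
          exp (s • Z) * Y' * exp (-(s • Z)) := by
        rw [← cj_cj D hU, ← hY', cj_unit D hU (hZ s)]
        rfl
      have h6 : rf X (cj ((ex (s • Z) * x : (Matrix (Fin n) (Fin n) ℂ)ˣ) :
          Matrix (Fin n) (Fin n) ℂ) Y) ≤ rf X (cj (x : Matrix (Fin n) (Fin n) ℂ) Y) := h4
      rw [h5, ← hY'] at h6
      simpa using h6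
    have h3 := h2.hasDerivAt_eq_zero h1
    rw [hL] at h3
    exact h3
  have hcomm : br Y' X = 0 := by
    apply rf_self
    have h1 := hcrit (br Y' X) (lie_br D hD hY'k (ht.1 hX))
    rw [br_comm' (br Y' X) Y', map_neg, neg_eq_zero] at h1
    rw [rf_br (hsk Y' hY'k), h1, neg_zero]
  have hY't : Y' ∈ t := by
    apply hXr Y' hY'k
    rw [br_comm', hcomm, neg_zero]
  -- t is contained in the conjugate of t'
  have hle : ∀ Z ∈ t, cj (x : Matrix (Fin n) (Fin n) ℂ)ᴴ Z ∈ t' := by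
    intro Z hZ
    apply hYr
    · exact lie_cj' D hD hU (ht.1 hZ) hxD
    · have h1 : Y = cj (x : Matrix (Fin n) (Fin n) ℂ)ᴴ Y' := by
        rw [hY', cj_inv_cj D hU hxD]
      rw [h1, ← cj_br, ht.2.1 Y' hY't Z hZ]
      · simp [cj]
      · rw [conjTranspose_conjTranspose]
        exact mul_eq_one_comm.1 (hU x hxD)
  refine ⟨x, hxD, fun Z => ⟨fun hZ => ?_, fun hZ => ?_⟩⟩
  · apply ht.2.2
    · exact lie_cj D hD hU (ht'.1 hZ) hxD
    · intro W hW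
      have h1 := ht'.2.1 _ (hle W hW) Z hZ
      have h2 := congrArg (cj (x : Matrix (Fin n) (Fin n) ℂ)) h1
      rw [cj_br (hU x hxD), cj_cj_inv D hU hxD] at h2
      rw [h2]
      simp [cj]
  · have h1 := hle _ hZ
    rwa [cj_inv_cj D hU hxD] at h1

/-- **Core theorem.** -/
theorem exists_subgroup (hDc : IsCompact (D : Set (Matrix (Fin n) (Fin n) ℂ)ˣ))
    (hna : ∃ X ∈ lieAlg D hD, ∃ Y ∈ lieAlg D hD, br X Y ≠ 0) :
    ∃ H : Subgroup (Matrix (Fin n) (Fin n) ℂ)ˣ, IsClosed (H : Set (Matrix (Fin n) (Fin n) ℂ)ˣ) ∧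
      (∃ u ∈ D, u ∉ H) ∧ ∀ g ∈ D, ∃ x ∈ D, x * g * x⁻¹ ∈ H := by
  have hsk : ∀ X ∈ lieAlg D hD, Xᴴ = -X := fun X hX => lie_skew D hD hU hX
  have hbr : ∀ X ∈ lieAlg D hD, ∀ Y ∈ lieAlg D hD, br X Y ∈ lieAlg D hD :=
    fun X hX Y hY => lie_br D hD hX hY
  have hex : ∀ g ∈ D, ∃ t, IsCart (lieAlg D hD) t ∧
      (∀ X ∈ t, cj (g : Matrix (Fin n) (Fin n) ℂ) X ∈ t) ∧
      ∀ X ∈ t, cj (g : Matrix (Fin n) (Fin n) ℂ)ᴴ X ∈ t := by
    intro g hg
    exact exists_cart _ hsk hbr g (hU g hg) (fun X hX => lie_cj D hD hU hX hg)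
      (fun X hX => lie_cj' D hD hU hX hg)
  obtain ⟨t, ht, -, -⟩ := hex 1 D.one_mem
  obtain ⟨H, hH⟩ : ∃ H : Subgroup (Matrix (Fin n) (Fin n) ℂ)ˣ, ∀ u, u ∈ H ↔
      (∀ X ∈ t, (u : Matrix (Fin n) (Fin n) ℂ) * X *
        ((u⁻¹ : (Matrix (Fin n) (Fin n) ℂ)ˣ) : Matrix (Fin n) (Fin n) ℂ) ∈ t) ∧
      (∀ X ∈ t, ((u⁻¹ : (Matrix (Fin n) (Fin n) ℂ)ˣ) : Matrix (Fin n) (Fin n) ℂ) * X *
        (u : Matrix (Fin n) (Fin n) ℂ) ∈ t) := by
    refine ⟨⟨⟨⟨{u | (∀ X ∈ t, (u : Matrix (Fin n) (Fin n) ℂ) * X *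
        ((u⁻¹ : (Matrix (Fin n) (Fin n) ℂ)ˣ) : Matrix (Fin n) (Fin n) ℂ) ∈ t) ∧
      (∀ X ∈ t, ((u⁻¹ : (Matrix (Fin n) (Fin n) ℂ)ˣ) : Matrix (Fin n) (Fin n) ℂ) * X *
        (u : Matrix (Fin n) (Fin n) ℂ) ∈ t)}, ?_⟩, ?_⟩, ?_⟩, fun u => Iff.rfl⟩
    · rintro u v ⟨hu, hu'⟩ ⟨hv, hv'⟩
      refine ⟨fun X hX => ?_, fun X hX => ?_⟩
      · have := hu _ (hv X hX)
        rw [_root_.mul_inv_rev, Units.val_mul, Units.val_mul]
        convert this using 1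
        noncomm_ring
      · have := hv' _ (hu' X hX)
        rw [_root_.mul_inv_rev, Units.val_mul, Units.val_mul]
        convert this using 1
        noncomm_ring
    · refine ⟨fun X hX => ?_, fun X hX => ?_⟩
      · simpa using hX
      · simpa using hX
    · rintro u ⟨hu, hu'⟩
      refine ⟨fun X hX => ?_, fun X hX => ?_⟩
      · rw [inv_inv]; exact hu' X hX
      · rw [inv_inv]; exact hu X hX
  refine ⟨H, ?_, ?_, ?_⟩
  · have hcl : IsClosed (t : Set (Matrix (Fin n) (Fin n) ℂ)) :=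
      Submodule.closed_of_finiteDimensional _
    have h1 : (H : Set (Matrix (Fin n) (Fin n) ℂ)ˣ) =
        (⋂ X ∈ t, {u : (Matrix (Fin n) (Fin n) ℂ)ˣ | (u : Matrix (Fin n) (Fin n) ℂ) * X *
        ((u⁻¹ : (Matrix (Fin n) (Fin n) ℂ)ˣ) : Matrix (Fin n) (Fin n) ℂ) ∈ t}) ∩
        (⋂ X ∈ t, {u : (Matrix (Fin n) (Fin n) ℂ)ˣ |
          ((u⁻¹ : (Matrix (Fin n) (Fin n) ℂ)ˣ) : Matrix (Fin n) (Fin n) ℂ) * X *
        (u : Matrix (Fin n) (Fin n) ℂ) ∈ t}) := by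
      ext u
      rw [Set.mem_inter_iff, Set.mem_iInter₂, Set.mem_iInter₂]
      exact hH u
    rw [h1]
    refine IsClosed.inter ?_ ?_
    · refine isClosed_biInter fun X _ => ?_
      refine hcl.preimage ?_
      exact (Units.continuous_val.mul continuous_const).mul
        (Units.continuous_val.comp continuous_inv)
    · refine isClosed_biInter fun X _ => ?_
      refine hcl.preimage ?_
      exact ((Units.continuous_val.comp continuous_inv).mul continuous_const).mul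
        Units.continuous_val
  · by_contra hcon
    push Not at hcon
    have hcl : IsClosed (t : Set (Matrix (Fin n) (Fin n) ℂ)) :=
      Submodule.closed_of_finiteDimensional _
    have h1 : ∀ X ∈ lieAlg D hD, ∀ Y ∈ t, br X Y ∈ t := by
      intro X hX Y hY
      refine bracket_mem _ hcl X Y hY (Eventually.of_forall fun s => ?_)
      exact ((hH _).1 (hcon _ (hX s))).1 Y hY
    have h2 : ∀ X ∈ lieAlg D hD, ∀ Y ∈ t, br Y X = 0 := by
      intro X hX Y hY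
      apply rf_self
      rw [rf_br (hsk Y (ht.1 hY))]
      have h3 : br Y X ∈ t := by
        rw [br_comm']
        exact t.neg_mem (h1 X hX Y hY)
      rw [ht.2.1 Y hY _ h3, map_zero, neg_zero]
    obtain ⟨X, hX, Y, hY, hXY⟩ := hna
    exact hXY (ht.2.1 X (ht.2.2 X hX (h2 X hX)) Y (ht.2.2 Y hY (h2 Y hY)))
  · intro g hg
    obtain ⟨t', ht', hgt, hgt'⟩ := hex g hg
    obtain ⟨x, hxD, hx⟩ := conj_cart D hD hU hDc ht ht'
    refine ⟨x, hxD, ?_⟩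
    rw [hH]
    have hxg : x * g * x⁻¹ ∈ D := D.mul_mem (D.mul_mem hxD hg) (D.inv_mem hxD)
    have hpull : ∀ X ∈ t, cj (x : Matrix (Fin n) (Fin n) ℂ)ᴴ X ∈ t' := by
      intro X hX
      rw [hx, cj_cj_inv D hU hxD]
      exact hX
    refine ⟨fun X hX => ?_, fun X hX => ?_⟩
    · have h1 := (hx _).1 (hgt _ (hpull X hX))
      rw [← inv_eq_star D hU hxD, cj_cj D hU, cj_cj D hU] at h1
      rw [← cj_unit D hU hxg]
      exact h1
    · have h1 := (hx _).1 (hgt' _ (hpull X hX))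
      rw [← inv_eq_star D hU hxD, ← inv_eq_star D hU hg, cj_cj D hU, cj_cj D hU] at h1
      have h2 := cj_unit D hU (D.inv_mem hxg) X
      rw [inv_inv] at h2
      rw [← h2]
      convert h1 using 3
      group

end

end Pool.Agent.ZH16.TIG
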