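import Pool.Agent.ZH16.TIG.KL
import Pool.Agent.E8helper46.FL.ExpLie

set_option autoImplicit false

/-! Closed groups of unitary matrices: a proper closed subgroup meeting all conjugacy classes. -/

namespace Pool.Agent.ZH16.TIG

open Matrix Filter Topology NormedSpace
open scoped Matrix.Norms.Operator
open Pool.Agent.E8helper46.FL

variable {n : ℕ}

theorem hf_conj (U V : Matrix (Fin n) (Fin n) ℂ) : hf V U = starRingEnd ℂ (hf U V) := by
  unfold hf
  have : (Uᴴ * V)ᴴ = Vᴴ * U := by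
    rw [conjTranspose_mul, conjTranspose_conjTranspose]
  rw [← this, trace_conjTranspose]
  rfl

theorem hf_add_right (U V W : Matrix (Fin n) (Fin n) ℂ) : hf U (V + W) = hf U V + hf U W := by
  unfold hf; rw [Matrix.mul_add, trace_add]

theorem hf_add_left (U V W : Matrix (Fin n) (Fin n) ℂ) : hf (U + V) W = hf U W + hf V W := by
  unfold hf; rw [conjTranspose_add, Matrix.add_mul, trace_add]

theorem hf_smul_right (c : ℝ) (U V : Matrix (Fin n) (Fin n) ℂ) : hf U (c • V) = c • hf U V := by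
  unfold hf; rw [Matrix.mul_smul, trace_smul]

theorem hf_smul_left (c : ℝ) (U V : Matrix (Fin n) (Fin n) ℂ) : hf (c • U) V = c • hf U V := by
  unfold hf; rw [conjTranspose_smul, Matrix.smul_mul, trace_smul]; simp

/-- the real trace form -/
noncomputable def rf : LinearMap.BilinForm ℝ (Matrix (Fin n) (Fin n) ℂ) :=
  LinearMap.mk₂ ℝ (fun U V => (hf U V).re)
    (fun U V W => by simp only [hf_add_left, Complex.add_re])
    (fun c U V => by simp only [hf_smul_left, Complex.real_smul, Complex.mul_re,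
      Complex.ofReal_re, Complex.ofReal_im, smul_eq_mul]; ring)
    (fun U V W => by simp only [hf_add_right, Complex.add_re])
    (fun c U V => by simp only [hf_smul_right, Complex.real_smul, Complex.mul_re,
      Complex.ofReal_re, Complex.ofReal_im, smul_eq_mul]; ring)

theorem rf_apply (U V : Matrix (Fin n) (Fin n) ℂ) : rf U V = (hf U V).re := rfl

theorem rf_symm (U V : Matrix (Fin n) (Fin n) ℂ) : rf U V = rf V U := by
  rw [rf_apply, rf_apply, hf_conj, Complex.conj_re]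

theorem rf_self {U : Matrix (Fin n) (Fin n) ℂ} (h : rf U U = 0) : U = 0 := by
  apply hf_self
  have h1 := hf_conj U U
  apply Complex.ext
  · exact h
  · have := congrArg Complex.im h1
    rw [Complex.conj_im] at this
    rw [Complex.zero_im]
    linarith

theorem rf_br {Z : Matrix (Fin n) (Fin n) ℂ} (hZ : Zᴴ = -Z) (X Y : Matrix (Fin n) (Fin n) ℂ) :
    rf (br Z X) Y = - rf X (br Z Y) := by
  rw [rf_apply, rf_apply, hf_br, hZ]
  have : br (-Z) Y = -(br Z Y) := by unfold br; noncomm_ring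
  rw [this]
  unfold hf
  rw [Matrix.mul_neg, trace_neg, Complex.neg_re]

theorem rf_cont : Continuous fun p : Matrix (Fin n) (Fin n) ℂ × Matrix (Fin n) (Fin n) ℂ =>
    rf p.1 p.2 := by
  show Continuous fun p : Matrix (Fin n) (Fin n) ℂ × Matrix (Fin n) (Fin n) ℂ =>
    (trace (p.1ᴴ * p.2)).re
  refine Complex.continuous_re.comp ?_
  exact (continuous_fst.matrix_conjTranspose.matrix_mul continuous_snd).matrix_trace

theorem br_comm' (X Y : Matrix (Fin n) (Fin n) ℂ) : br X Y = - br Y X := by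
  unfold br; noncomm_ring

theorem br_add_left (X Y Z : Matrix (Fin n) (Fin n) ℂ) : br (X + Y) Z = br X Z + br Y Z := by
  unfold br; noncomm_ring

theorem br_add_right (X Y Z : Matrix (Fin n) (Fin n) ℂ) : br X (Y + Z) = br X Y + br X Z := by
  unfold br; noncomm_ring

theorem br_smul_left (c : ℝ) (X Z : Matrix (Fin n) (Fin n) ℂ) : br (c • X) Z = c • br X Z := by
  unfold br; rw [Matrix.smul_mul, Matrix.mul_smul, smul_sub]

theorem br_smul_right (c : ℝ) (X Z : Matrix (Fin n) (Fin n) ℂ) : br X (c • Z) = c • br X Z := by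
  unfold br; rw [Matrix.smul_mul, Matrix.mul_smul, smul_sub]

section lie

/-- the centralizer of `X` in `k` -/
def cent (k : Submodule ℝ (Matrix (Fin n) (Fin n) ℂ)) (X : Matrix (Fin n) (Fin n) ℂ) :
    Submodule ℝ (Matrix (Fin n) (Fin n) ℂ) where
  carrier := {Z | Z ∈ k ∧ br X Z = 0}
  zero_mem' := ⟨k.zero_mem, br_zero X⟩
  add_mem' := by
    rintro a b ⟨ha, ha'⟩ ⟨hb, hb'⟩
    exact ⟨k.add_mem ha hb, by rw [br_add_right, ha', hb', add_zero]⟩
  smul_mem' := by
    rintro c a ⟨ha, ha'⟩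
    exact ⟨k.smul_mem c ha, by rw [br_smul_right, ha', smul_zero]⟩

theorem mem_cent {k : Submodule ℝ (Matrix (Fin n) (Fin n) ℂ)} {X Z : Matrix (Fin n) (Fin n) ℂ} :
    Z ∈ cent k X ↔ Z ∈ k ∧ br X Z = 0 := Iff.rfl

variable (k : Submodule ℝ (Matrix (Fin n) (Fin n) ℂ)) (hsk : ∀ X ∈ k, Xᴴ = -X)
  (hbr : ∀ X ∈ k, ∀ Y ∈ k, br X Y ∈ k)

include hsk

theorem generic_pair {X Y : Matrix (Fin n) (Fin n) ℂ} (hX : X ∈ k) (hY : Y ∈ k)
    (hXY : br X Y = 0) : ∃ c : ℝ, ∀ Z ∈ k, br (X + c • Y) Z = 0 → br Y Z = 0 := by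
  by_contra hcon
  push Not at hcon
  have hc : ∀ i : ℕ, ∃ Z ∈ k, br (X + (i : ℝ) • Y) Z = 0 ∧ br Y Z ≠ 0 := fun i => hcon i
  choose Z hZk hZ hZ' using hc
  have horth : ∀ i j : ℕ, i ≠ j → rf (br Y (Z i)) (br Y (Z j)) = 0 := by
    intro i j hij
    have h1 : ∀ i, br X (Z i) = -((i : ℝ) • br Y (Z i)) := by
      intro i
      have := hZ i
      rw [br_add_left, br_smul_left] at this
      exact eq_neg_of_add_eq_zero_left this
    have h2 : br X (br Y (Z j)) = br Y (br X (Z j)) := by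
      rw [br_jacobi, hXY]
      simp [br]
    have h3 := rf_br (hsk X hX) (Z i) (br Y (Z j))
    rw [h2, ← neg_eq_iff_eq_neg.2 (rf_br (hsk Y hY) (Z i) (br X (Z j))), neg_neg, h1, h1] at h3
    rw [map_neg, map_smul, LinearMap.neg_apply, LinearMap.smul_apply, map_neg, map_smul,
      smul_eq_mul, smul_eq_mul] at h3
    have h4 : ((i : ℝ) - j) * rf (br Y (Z i)) (br Y (Z j)) = 0 := by linarith
    rcases mul_eq_zero.1 h4 with h5 | h5
    · exact absurd (Nat.cast_injective (sub_eq_zero.1 h5)) hij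
    · exact h5
  have hli : LinearIndependent ℝ fun i => br Y (Z i) := by
    apply LinearMap.BilinForm.linearIndependent_of_iIsOrtho (B := rf)
    · intro i j hij
      exact horth i j hij
    · intro i h
      exact hZ' i (rf_self h)
  have := hli.finite
  exact not_finite ℕ

theorem exists_generic (t : Submodule ℝ (Matrix (Fin n) (Fin n) ℂ)) (ht : t ≤ k)
    (hab : ∀ X ∈ t, ∀ Y ∈ t, br X Y = 0) :
    ∃ X ∈ t, ∀ Z ∈ k, br X Z = 0 → ∀ Y ∈ t, br Y Z = 0 := by
  obtain ⟨S, hS⟩ : ∃ S : Set ℕ, S = {d | ∃ X ∈ t, Module.finrank ℝ (cent k X) = d} := ⟨_, rfl⟩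
  have hne : S.Nonempty := by
    rw [hS]; exact ⟨_, 0, t.zero_mem, rfl⟩
  have hmem := Nat.sInf_mem hne
  have hmin : ∀ X ∈ t, sInf S ≤ Module.finrank ℝ (cent k X) := by
    intro X hX
    apply Nat.sInf_le
    rw [hS]
    exact ⟨X, hX, rfl⟩
  rw [hS] at hmem
  obtain ⟨X, hXt, hX⟩ := hmem
  rw [← hS] at hX
  refine ⟨X, hXt, ?_⟩
  intro Z hZ hXZ Y hY
  obtain ⟨c, hc⟩ := generic_pair k hsk (ht hXt) (ht hY) (hab X hXt Y hY)
  have hle : cent k (X + c • Y) ≤ cent k X := by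
    intro W hW
    have h1 := hc W hW.1 hW.2
    refine ⟨hW.1, ?_⟩
    have h2 := hW.2
    rw [br_add_left, br_smul_left, h1, smul_zero, add_zero] at h2
    exact h2
  have heq : cent k (X + c • Y) = cent k X := by
    apply Submodule.eq_of_le_of_finrank_le hle
    rw [hX]
    exact hmin _ (t.add_mem hXt (t.smul_mem c hY))
  have h3 : Z ∈ cent k (X + c • Y) := by
    rw [heq]; exact ⟨hZ, hXZ⟩
  exact hc Z hZ h3.2

/-- `t` is a self-centralizing commutative subspace of `k` -/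
def IsCart (k t : Submodule ℝ (Matrix (Fin n) (Fin n) ℂ)) : Prop :=
  t ≤ k ∧ (∀ X ∈ t, ∀ Y ∈ t, br X Y = 0) ∧ ∀ X ∈ k, (∀ Y ∈ t, br Y X = 0) → X ∈ t

theorem IsCart.regular {t : Submodule ℝ (Matrix (Fin n) (Fin n) ℂ)} (h : IsCart k t) :
    ∃ X ∈ t, ∀ Z ∈ k, br X Z = 0 → Z ∈ t := by
  obtain ⟨X, hX, hX'⟩ := exists_generic k hsk t h.1 h.2.1
  exact ⟨X, hX, fun Z hZ hXZ => h.2.2 Z hZ (hX' Z hZ hXZ)⟩

omit hsk in
/-- the complexification -/
def cpl (t : Submodule ℝ (Matrix (Fin n) (Fin n) ℂ)) : Submodule ℂ (Matrix (Fin n) (Fin n) ℂ) where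
  carrier := {U | ∃ P ∈ t, ∃ Q ∈ t, U = P + Complex.I • Q}
  zero_mem' := ⟨0, t.zero_mem, 0, t.zero_mem, by simp⟩
  add_mem' := by
    rintro _ _ ⟨P, hP, Q, hQ, rfl⟩ ⟨P', hP', Q', hQ', rfl⟩
    refine ⟨P + P', t.add_mem hP hP', Q + Q', t.add_mem hQ hQ', ?_⟩
    rw [smul_add]; abel
  smul_mem' := by
    rintro c _ ⟨P, hP, Q, hQ, rfl⟩
    refine ⟨c.re • P - c.im • Q, t.sub_mem (t.smul_mem _ hP) (t.smul_mem _ hQ),
      c.re • Q + c.im • P, t.add_mem (t.smul_mem _ hQ) (t.smul_mem _ hP), ?_⟩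
    ext i j
    simp only [Matrix.smul_apply, Matrix.add_apply, Matrix.sub_apply, smul_eq_mul,
      Complex.real_smul]
    apply Complex.ext <;> simp <;> ring

include hbr in
/-- Every unitary matrix normalizing `k` normalizes some self-centralizing commutative subspace. -/
theorem exists_cart (g : Matrix (Fin n) (Fin n) ℂ) (hg : gᴴ * g = 1) (hgk : ∀ X ∈ k, cj g X ∈ k)
    (hgk' : ∀ X ∈ k, cj gᴴ X ∈ k) :
    ∃ t, IsCart k t ∧ (∀ X ∈ t, cj g X ∈ t) ∧ ∀ X ∈ t, cj gᴴ X ∈ t := by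
  have hg' : g * gᴴ = 1 := mul_eq_one_comm.1 hg
  obtain ⟨P, hP⟩ : ∃ P : Submodule ℝ (Matrix (Fin n) (Fin n) ℂ) → Prop, ∀ s, P s ↔
      (s ≤ k ∧ (∀ X ∈ s, cj g X = X) ∧ ∀ X ∈ s, ∀ Y ∈ s, br X Y = 0) := ⟨_, fun _ => Iff.rfl⟩
  have hne : {s | P s}.Nonempty := by
    refine ⟨⊥, ?_⟩
    show P ⊥
    rw [hP]
    refine ⟨bot_le, ?_, ?_⟩
    · intro X hX
      rw [Submodule.mem_bot] at hX
      rw [hX]; simp [cj]
    · intro X hX Y _
      rw [Submodule.mem_bot] at hX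
      rw [hX]; simp [br]
  obtain ⟨s, hs, hmax⟩ := (wellFounded_gt :
    WellFounded ((· > ·) : Submodule ℝ (Matrix (Fin n) (Fin n) ℂ) → _ → Prop)).has_min _ hne
  have hs : P s := hs
  rw [hP] at hs
  obtain ⟨hsk', hsf, hsab⟩ := hs
  -- maximality
  have hmem : ∀ X ∈ k, cj g X = X → (∀ Y ∈ s, br Y X = 0) → X ∈ s := by
    intro X hX hXg hXs
    have h1 : P (s ⊔ Submodule.span ℝ {X}) := by
      rw [hP]
      refine ⟨sup_le hsk' ?_, ?_, ?_⟩
      · rw [Submodule.span_le]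
        rintro _ rfl
        exact hX
      · intro Z hZ
        obtain ⟨a, ha, b, hb, rfl⟩ := Submodule.mem_sup.1 hZ
        obtain ⟨c, rfl⟩ := Submodule.mem_span_singleton.1 hb
        rw [cj_add, hsf a ha]
        have : cj g (c • X) = c • cj g X := by unfold cj; simp
        rw [this, hXg]
      · intro Z hZ W hW
        obtain ⟨a, ha, b, hb, rfl⟩ := Submodule.mem_sup.1 hZ
        obtain ⟨c, rfl⟩ := Submodule.mem_span_singleton.1 hb
        obtain ⟨a', ha', b', hb', rfl⟩ := Submodule.mem_sup.1 hW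
        obtain ⟨c', rfl⟩ := Submodule.mem_span_singleton.1 hb'
        rw [br_add_left, br_add_right, br_add_right, br_smul_left, br_smul_left, br_smul_right,
          br_smul_right, hsab a ha a' ha', hXs a ha, br_comm' X a', hXs a' ha']
        simp [br]
    have h2 := hmax _ h1
    have h3 : s ⊔ Submodule.span ℝ {X} = s := by
      by_contra hne
      exact h2 (lt_of_le_of_ne le_sup_left (Ne.symm hne))
    rw [← h3]
    exact (le_sup_right : Submodule.span ℝ {X} ≤ _) (Submodule.mem_span_singleton_self X)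
  -- the centralizer
  obtain ⟨t, ht⟩ : ∃ t : Submodule ℝ (Matrix (Fin n) (Fin n) ℂ), ∀ X, X ∈ t ↔
      (X ∈ k ∧ ∀ Y ∈ s, br Y X = 0) := by
    refine ⟨⟨⟨⟨{X | X ∈ k ∧ ∀ Y ∈ s, br Y X = 0}, ?_⟩, ?_⟩, ?_⟩, fun X => Iff.rfl⟩
    · rintro a b ⟨ha, ha'⟩ ⟨hb, hb'⟩
      exact ⟨k.add_mem ha hb, fun Y hY => by rw [br_add_right, ha' Y hY, hb' Y hY, add_zero]⟩
    · exact ⟨k.zero_mem, fun Y _ => br_zero Y⟩
    · rintro c a ⟨ha, ha'⟩
      exact ⟨k.smul_mem c ha, fun Y hY => by rw [br_smul_right, ha' Y hY, smul_zero]⟩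
  have hst : s ≤ t := fun X hX => (ht X).2 ⟨hsk' hX, fun Y hY => hsab Y hY X hX⟩
  have hgt : ∀ X ∈ t, cj g X ∈ t := by
    intro X hX
    rw [ht] at hX ⊢
    refine ⟨hgk X hX.1, fun Y hY => ?_⟩
    have h1 := hX.2 Y hY
    have h2 := cj_br hg Y X
    rw [h1, hsf Y hY] at h2
    rw [← h2]
    simp [cj]
  have hgt' : ∀ X ∈ t, cj gᴴ X ∈ t := by
    intro X hX
    rw [ht] at hX ⊢
    refine ⟨hgk' X hX.1, fun Y hY => ?_⟩
    have h1 := hX.2 Y hY
    have h2 := cj_br (g := gᴴ) (by rw [conjTranspose_conjTranspose]; exact hg') Y X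
    have h3 : cj gᴴ Y = Y := by
      have h4 := hsf Y hY
      nth_rewrite 1 [← h4]
      unfold cj
      rw [conjTranspose_conjTranspose]
      calc gᴴ * (g * Y * gᴴ) * g = (gᴴ * g) * Y * (gᴴ * g) := by noncomm_ring
        _ = Y := by rw [hg, Matrix.one_mul, Matrix.mul_one]
    rw [h1, h3] at h2
    rw [← h2]
    simp [cj]
  have hskt : ∀ X ∈ t, Xᴴ = -X := fun X hX => hsk X ((ht X).1 hX).1
  have hbrt : ∀ X ∈ t, ∀ Y ∈ t, br X Y ∈ t := by
    intro X hX Y hY
    rw [ht] at hX hY ⊢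
    refine ⟨hbr X hX.1 Y hY.1, fun Z hZ => ?_⟩
    rw [br_jacobi, hX.2 Z hZ, hY.2 Z hZ]
    simp [br]
  -- the complexification
  have hcomm : ∀ U ∈ cpl t, ∀ V ∈ cpl t, br U V = 0 := by
    refine comm_of_fix (cpl t) ?_ ?_ hg ?_ ?_
    · rintro _ ⟨P, hP, Q, hQ, rfl⟩
      refine ⟨-P, t.neg_mem hP, Q, hQ, ?_⟩
      rw [conjTranspose_add, conjTranspose_smul, hskt P hP, hskt Q hQ]
      simp
    · rintro _ ⟨P, hP, Q, hQ, rfl⟩ _ ⟨P', hP', Q', hQ', rfl⟩
      refine ⟨br P P' - br Q Q', t.sub_mem (hbrt _ hP _ hP') (hbrt _ hQ _ hQ'),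
        br P Q' + br Q P', t.add_mem (hbrt _ hP _ hQ') (hbrt _ hQ _ hP'), ?_⟩
      have h1 : ∀ U V W : Matrix (Fin n) (Fin n) ℂ, br (U + Complex.I • V) W =
          br U W + Complex.I • br V W := by
        intro U V W
        unfold br
        rw [Matrix.add_mul, Matrix.mul_add, Matrix.smul_mul, Matrix.mul_smul, smul_sub]
        abel
      have h2 : ∀ U V W : Matrix (Fin n) (Fin n) ℂ, br W (U + Complex.I • V) =
          br W U + Complex.I • br W V := by
        intro U V W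
        unfold br
        rw [Matrix.add_mul, Matrix.mul_add, Matrix.smul_mul, Matrix.mul_smul, smul_sub]
        abel
      rw [h1, h2, h2, smul_add, smul_smul, Complex.I_mul_I, smul_add, neg_one_smul]
      abel
    · rintro _ ⟨P, hP, Q, hQ, rfl⟩
      exact ⟨cj g P, hgt P hP, cj g Q, hgt Q hQ, by rw [cj_add, cj_smul]⟩
    · rintro _ ⟨P, hP, Q, hQ, rfl⟩ hfix V ⟨P', hP', Q', hQ', hV⟩
      rw [cj_add, cj_smul] at hfix
      obtain ⟨R, hR⟩ : ∃ R, R = cj g P - P := ⟨_, rfl⟩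
      obtain ⟨T, hT⟩ : ∃ T, T = cj g Q - Q := ⟨_, rfl⟩
      have hRt : R ∈ t := by rw [hR]; exact t.sub_mem (hgt P hP) hP
      have hTt : T ∈ t := by rw [hT]; exact t.sub_mem (hgt Q hQ) hQ
      have hRT : R = - (Complex.I • T) := by
        rw [hR, hT, smul_sub]
        have : cj g P - P + (Complex.I • cj g Q - Complex.I • Q) = 0 := by
          have h1 := sub_eq_zero.2 hfix
          rw [← h1]; abel
        exact eq_neg_of_add_eq_zero_left this
      have h1 : Rᴴ = R := by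
        rw [hRT, conjTranspose_neg, conjTranspose_smul, hskt T hTt]
        simp
      have hR0 : R = 0 := by
        have h2 := hskt R hRt
        rw [h1] at h2
        have h3 : (2 : ℂ) • R = 0 := by
          rw [two_smul]
          nth_rewrite 1 [h2]
          exact neg_add_cancel R
        exact (smul_eq_zero.1 h3).resolve_left two_ne_zero
      have hT0 : T = 0 := by
        rw [hR0] at hRT
        have h3 : Complex.I • T = 0 := by
          rw [← neg_eq_zero]; exact hRT.symm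
        exact (smul_eq_zero.1 h3).resolve_left Complex.I_ne_zero
      have hPs : P ∈ s := hmem P ((ht P).1 hP).1 (sub_eq_zero.1 (hR ▸ hR0)) ((ht P).1 hP).2
      have hQs : Q ∈ s := hmem Q ((ht Q).1 hQ).1 (sub_eq_zero.1 (hT ▸ hT0)) ((ht Q).1 hQ).2
      have e1 := ((ht P').1 hP').2 P hPs
      have e2 := ((ht Q').1 hQ').2 P hPs
      have e3 := ((ht P').1 hP').2 Q hQs
      have e4 := ((ht Q').1 hQ').2 Q hQs
      rw [hV]
      unfold br at e1 e2 e3 e4 ⊢
      rw [sub_eq_zero] at e1 e2 e3 e4 ⊢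
      simp only [Matrix.add_mul, Matrix.mul_add, Matrix.smul_mul, Matrix.mul_smul, e1, e2, e3, e4,
        smul_add]
      abel
  refine ⟨t, ⟨fun X hX => ((ht X).1 hX).1, ?_, ?_⟩, hgt, hgt'⟩
  · intro X hX Y hY
    exact hcomm X ⟨X, hX, 0, t.zero_mem, by simp⟩ Y ⟨Y, hY, 0, t.zero_mem, by simp⟩
  · intro X hX hXt
    rw [ht]
    exact ⟨hX, fun Y hY => hXt Y (hst hY)⟩

end lie

end Pool.Agent.ZH16.TIG
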