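import Pool.Agent.ZH16.TIG.NT

set_option autoImplicit false

/-! A self-adjoint complex Lie algebra of matrices with a unitary automorphism whose fixed points
are central is commutative. -/

namespace Pool.Agent.ZH16.TIG

open Matrix
open scoped ComplexOrder

set_option linter.unusedSectionVars false

variable {n : Type} [Fintype n] [DecidableEq n]

/-- the Hermitian form -/
noncomputable def hf (U V : Matrix n n ℂ) : ℂ := trace (Uᴴ * V)

theorem hf_self {U : Matrix n n ℂ} (h : hf U U = 0) : U = 0 :=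
  (trace_conjTranspose_mul_self_eq_zero_iff (A := U)).1 h

/-- the bracket -/
def br (U V : Matrix n n ℂ) : Matrix n n ℂ := U * V - V * U

theorem br_zero (U : Matrix n n ℂ) : br U 0 = 0 := by simp [br]

theorem hf_br (U X Y : Matrix n n ℂ) : hf (br U X) Y = hf X (br Uᴴ Y) := by
  unfold hf br
  rw [conjTranspose_sub, conjTranspose_mul, conjTranspose_mul, Matrix.sub_mul, Matrix.mul_sub,
    trace_sub, trace_sub]
  have h1 : trace (Xᴴ * Uᴴ * Y) = trace (Xᴴ * (Uᴴ * Y)) := by rw [Matrix.mul_assoc]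
  have h2 : trace (Uᴴ * Xᴴ * Y) = trace (Xᴴ * (Y * Uᴴ)) := by
    rw [Matrix.mul_assoc, Matrix.trace_mul_comm, Matrix.mul_assoc]
  rw [h1, h2]

theorem br_jacobi (U V W : Matrix n n ℂ) : br U (br V W) = br V (br U W) + br (br U V) W := by
  unfold br; noncomm_ring

theorem br_iter_sub (U : Matrix n n ℂ) (k : ℕ) (V : Matrix n n ℂ) :
    (br U)^[k + 1] V = br U ((br U)^[k] V) := Function.iterate_succ_apply' _ _ _

section

variable (z : Submodule ℂ (Matrix n n ℂ)) (hstar : ∀ U ∈ z, Uᴴ ∈ z)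
  (hbr : ∀ U ∈ z, ∀ V ∈ z, br U V ∈ z)

include hstar hbr

theorem normal_step {U : Matrix n n ℂ} (hU : U ∈ z) (hn : ∀ V ∈ z, br (br U Uᴴ) V = 0)
    {V : Matrix n n ℂ} (hV : V ∈ z) (h : br U (br U V) = 0) : br U V = 0 := by
  obtain ⟨W, hW⟩ : ∃ W, W = br U V := ⟨_, rfl⟩
  have hWz : W ∈ z := by rw [hW]; exact hbr U hU V hV
  have h1 : br U (br Uᴴ W) = 0 := by
    rw [br_jacobi, hn W hWz, hW, h, br_zero, add_zero]
  have h2 : br Uᴴ W = 0 := by
    apply hf_self
    rw [hf_br, conjTranspose_conjTranspose, h1]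
    simp [hf]
  have h3 : W = 0 := by
    apply hf_self
    nth_rewrite 1 [hW]
    rw [hf_br, h2]
    simp [hf]
  rw [← hW, h3]

theorem iter_mem {U : Matrix n n ℂ} (hU : U ∈ z) (k : ℕ) {V : Matrix n n ℂ} (hV : V ∈ z) :
    (br U)^[k] V ∈ z := by
  induction k with
  | zero => exact hV
  | succ k ih => rw [br_iter_sub]; exact hbr U hU _ ih

theorem normal_iter {U : Matrix n n ℂ} (hU : U ∈ z) (hn : ∀ V ∈ z, br (br U Uᴴ) V = 0)
    {V : Matrix n n ℂ} (hV : V ∈ z) (k : ℕ) (h : (br U)^[k + 1] V = 0) : br U V = 0 := by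
  induction k with
  | zero => exact h
  | succ k ih =>
    apply ih
    rw [br_iter_sub, br_iter_sub] at h
    rw [br_iter_sub]
    exact normal_step z hstar hbr hU hn (iter_mem z hstar hbr hU k hV) h

end

/-- conjugation by a unitary matrix -/
def cj (g U : Matrix n n ℂ) : Matrix n n ℂ := g * U * gᴴ

theorem cj_mul {g : Matrix n n ℂ} (hg : gᴴ * g = 1) (U V : Matrix n n ℂ) :
    cj g (U * V) = cj g U * cj g V := by
  unfold cj
  calc g * (U * V) * gᴴ = g * U * 1 * V * gᴴ := by noncomm_ring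
    _ = g * U * (gᴴ * g) * V * gᴴ := by rw [hg]
    _ = _ := by noncomm_ring

theorem cj_sub (g U V : Matrix n n ℂ) : cj g (U - V) = cj g U - cj g V := by
  unfold cj; noncomm_ring

theorem cj_add (g U V : Matrix n n ℂ) : cj g (U + V) = cj g U + cj g V := by
  unfold cj; noncomm_ring

theorem cj_smul (g : Matrix n n ℂ) (c : ℂ) (U : Matrix n n ℂ) : cj g (c • U) = c • cj g U := by
  unfold cj; simp

theorem cj_star (g U : Matrix n n ℂ) : cj g Uᴴ = (cj g U)ᴴ := by
  unfold cj
  rw [conjTranspose_mul, conjTranspose_mul, conjTranspose_conjTranspose, Matrix.mul_assoc]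

theorem cj_br {g : Matrix n n ℂ} (hg : gᴴ * g = 1) (U V : Matrix n n ℂ) :
    cj g (br U V) = br (cj g U) (cj g V) := by
  unfold br
  rw [cj_sub, cj_mul hg, cj_mul hg]

theorem br_smul (U V : Matrix n n ℂ) (c d : ℂ) : br (c • U) (d • V) = (c * d) • br U V := by
  unfold br
  rw [smul_mul_smul_comm, smul_mul_smul_comm, mul_comm d c, smul_sub]

theorem cj_hf {g : Matrix n n ℂ} (hg : gᴴ * g = 1) (U V : Matrix n n ℂ) :
    hf (cj g U) (cj g V) = hf U V := by
  unfold hf
  rw [← cj_star, ← cj_mul hg]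
  unfold cj
  rw [Matrix.mul_assoc, Matrix.trace_mul_comm, Matrix.mul_assoc, hg, Matrix.mul_one]

theorem hf_smul (U V : Matrix n n ℂ) (c d : ℂ) :
    hf (c • U) (d • V) = (starRingEnd ℂ c * d) * hf U V := by
  unfold hf
  rw [conjTranspose_smul, smul_mul_smul_comm, trace_smul, smul_eq_mul]
  rfl

theorem eig_norm {g : Matrix n n ℂ} (hg : gᴴ * g = 1) {U : Matrix n n ℂ} {c : ℂ}
    (h : cj g U = c • U) (hU : U ≠ 0) : starRingEnd ℂ c * c = 1 := by
  have h1 := cj_hf hg U U
  rw [h, hf_smul] at h1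
  have h2 : hf U U ≠ 0 := fun h2 => hU (hf_self h2)
  exact mul_right_cancel₀ h2 (by rw [h1, one_mul])

theorem eig_iter {g : Matrix n n ℂ} (hg : gᴴ * g = 1) {U V : Matrix n n ℂ} {c d : ℂ}
    (h : cj g U = c • U) (h' : cj g V = d • V) (k : ℕ) :
    cj g ((br U)^[k] V) = (c ^ k * d) • (br U)^[k] V := by
  induction k with
  | zero => rw [pow_zero, one_mul]; exact h'
  | succ k ih =>
    rw [br_iter_sub, cj_br hg, ih, h, br_smul, pow_succ]
    congr 1
    ring

/-- conjugation as a linear map -/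
def cjL (g : Matrix n n ℂ) : Matrix n n ℂ →ₗ[ℂ] Matrix n n ℂ where
  toFun := cj g
  map_add' := cj_add g
  map_smul' := cj_smul g

theorem cjL_apply (g U : Matrix n n ℂ) : cjL g U = cj g U := rfl

theorem eig_infinite {g : Matrix n n ℂ} (hg : gᴴ * g = 1) {U V : Matrix n n ℂ} {c d : ℂˣ}
    (h : cj g U = (c : ℂ) • U) (h' : cj g V = (d : ℂ) • V) (hc : ¬ IsOfFinOrder c) :
    ∃ k, (br U)^[k + 1] V = 0 := by
  by_contra hcon
  push Not at hcon
  have hinj : Function.Injective fun k : ℕ => (c : ℂ) ^ (k + 1) * (d : ℂ) := by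
    intro i j hij
    have h1 : c ^ (i + 1) * d = c ^ (j + 1) * d := by
      ext
      push_cast
      exact hij
    have h2 := mul_right_cancel h1
    have h3 := (injective_pow_iff_not_isOfFinOrder.2 hc) h2
    omega
  have hfin : Set.Finite {μ : ℂ | Module.End.HasEigenvalue (cjL g) μ} := by
    exact Module.End.finite_hasEigenvalue (cjL g)
  refine Set.infinite_range_of_injective hinj (hfin.subset ?_)
  rintro _ ⟨k, rfl⟩
  refine Module.End.hasEigenvalue_of_hasEigenvector (x := (br U)^[k + 1] V) ⟨?_, hcon k⟩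
  rw [Module.End.mem_eigenspace_iff]
  exact eig_iter hg h h' (k + 1)

section main

variable (z : Submodule ℂ (Matrix n n ℂ)) (hstar : ∀ U ∈ z, Uᴴ ∈ z)
  (hbr : ∀ U ∈ z, ∀ V ∈ z, br U V ∈ z) {g : Matrix n n ℂ} (hg : gᴴ * g = 1)
  (hz : ∀ U ∈ z, cj g U ∈ z) (hfix : ∀ U ∈ z, cj g U = U → ∀ V ∈ z, br U V = 0)

include hstar hbr hg hfix

theorem eig_normal {U : Matrix n n ℂ} (hU : U ∈ z) {c : ℂ} (h : cj g U = c • U) :
    ∀ V ∈ z, br (br U Uᴴ) V = 0 := by
  by_cases hU0 : U = 0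
  · intro V _
    rw [hU0]
    simp [br]
  have h1 := eig_norm hg h hU0
  apply hfix
  · exact hbr U hU _ (hstar U hU)
  · have h2 : cj g Uᴴ = (starRingEnd ℂ c) • Uᴴ := by
      rw [cj_star, h, conjTranspose_smul]
      rfl
    rw [cj_br hg, h, h2, br_smul, mul_comm, h1, one_smul]

theorem eig_pow {U V : Matrix n n ℂ} (hU : U ∈ z) (hV : V ∈ z) {c d : ℂ} (h : cj g U = c • U)
    (h' : cj g V = d • V) (j : ℕ) (hj : c ^ j * d = 1) : br U V = 0 := by
  have h1 := eig_iter hg h h' j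
  rw [hj, one_smul] at h1
  have hmem := iter_mem z hstar hbr hU j hV
  have h2 := hfix _ hmem h1 U hU
  apply normal_iter z hstar hbr hU (eig_normal z hstar hbr hg hfix hU h) hV j
  rw [br_iter_sub]
  unfold br at h2 ⊢
  rw [sub_eq_zero] at h2 ⊢
  exact h2.symm

theorem eig_comm {U V : Matrix n n ℂ} (hU : U ∈ z) (hV : V ∈ z) {c d : ℂ} (h : cj g U = c • U)
    (h' : cj g V = d • V) : br U V = 0 := by
  by_cases hU0 : U = 0
  · rw [hU0]; simp [br]
  by_cases hV0 : V = 0
  · rw [hV0]; simp [br]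
  have hc0 : c ≠ 0 := by
    rintro rfl
    have := eig_norm hg h hU0
    simp at this
  have hd0 : d ≠ 0 := by
    rintro rfl
    have := eig_norm hg h' hV0
    simp at this
  obtain ⟨c', rfl⟩ : ∃ c' : ℂˣ, (c' : ℂ) = c := ⟨Units.mk0 c hc0, rfl⟩
  obtain ⟨d', rfl⟩ : ∃ d' : ℂˣ, (d' : ℂ) = d := ⟨Units.mk0 d hd0, rfl⟩
  by_cases hc : IsOfFinOrder c'
  · by_cases hd : IsOfFinOrder d'
    · obtain ⟨k, j, hkj⟩ := exists_pow_pow c' d' hc hd
      have h1 := eig_iter hg h h' k
      have h2 : br ((br U)^[k] V) U = 0 := by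
        refine eig_pow z hstar hbr hg hfix (iter_mem z hstar hbr hU k hV) hU h1 h j ?_
        have := congrArg (fun t : ℂˣ => (t : ℂ)) hkj
        push_cast at this
        exact this
      apply normal_iter z hstar hbr hU (eig_normal z hstar hbr hg hfix hU h) hV k
      rw [br_iter_sub]
      unfold br at h2 ⊢
      rw [sub_eq_zero] at h2 ⊢
      exact h2.symm
    · obtain ⟨k, hk⟩ := eig_infinite hg h' h hd
      have h2 := normal_iter z hstar hbr hV (eig_normal z hstar hbr hg hfix hV h') hU k hk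
      unfold br at h2 ⊢
      rw [sub_eq_zero] at h2 ⊢
      exact h2.symm
  · obtain ⟨k, hk⟩ := eig_infinite hg h h' hc
    exact normal_iter z hstar hbr hU (eig_normal z hstar hbr hg hfix hU h) hV k hk

end main

section span

variable (z : Submodule ℂ (Matrix n n ℂ)) {g : Matrix n n ℂ} (hg : gᴴ * g = 1)
  (hz : ∀ U ∈ z, cj g U ∈ z)

/-- the restriction of conjugation -/
def cjz (hz : ∀ U ∈ z, cj g U ∈ z) : Module.End ℂ z := (cjL g).restrict hz

theorem cjz_coe (U : z) : (cjz z hz U : Matrix n n ℂ) = cj g U := rfl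

include hg hz

omit hz in
theorem gen_step {c : ℂ} {v : Matrix n n ℂ}
    (h : cj g (cj g v - c • v) = c • (cj g v - c • v)) : cj g v = c • v := by
  obtain ⟨w, hw⟩ : ∃ w, w = cj g v - c • v := ⟨_, rfl⟩
  rw [← hw] at h
  by_cases hw0 : w = 0
  · rw [hw0] at hw
    exact (sub_eq_zero.1 hw.symm)
  have hc := eig_norm hg h hw0
  exfalso
  apply hw0
  apply hf_self
  have h1 : hf w (cj g v) = c * hf w v := by
    have h2 := cj_hf hg w v
    rw [h] at h2
    have h3 : hf (c • w) (cj g v) = starRingEnd ℂ c * hf w (cj g v) := by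
      have := hf_smul w (cj g v) c 1
      rwa [one_smul, mul_one] at this
    rw [h3] at h2
    rw [← h2, ← mul_assoc, mul_comm c, hc, one_mul]
  have h4 : hf w (cj g v - c • v) = hf w (cj g v) - c * hf w v := by
    unfold hf
    rw [Matrix.mul_sub, trace_sub, Matrix.mul_smul, trace_smul, smul_eq_mul]
  nth_rewrite 2 [hw]
  rw [h4, h1, sub_self]

theorem gen_eig (c : ℂ) (v : z) (h : v ∈ (cjz z hz).maxGenEigenspace c) :
    cj g v = c • (v : Matrix n n ℂ) := by
  rw [Module.End.mem_maxGenEigenspace] at h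
  obtain ⟨k, hk⟩ := h
  have key : ∀ k : ℕ, ((cjz z hz - c • 1) ^ (k + 1)) v = 0 → (cjz z hz - c • 1) v = 0 := by
    intro k
    induction k with
    | zero => intro h; rwa [zero_add, pow_one] at h
    | succ k ih =>
      intro h
      apply ih
      rw [pow_succ'] at h ⊢
      rw [pow_succ'] at h
      obtain ⟨w, hw⟩ : ∃ w, w = ((cjz z hz - c • 1) ^ k) v := ⟨_, rfl⟩
      have h1 : (cjz z hz - c • 1) ((cjz z hz - c • 1) w) = 0 := by
        rw [hw]; exact h
      show (cjz z hz - c • 1) (((cjz z hz - c • 1) ^ k) v) = 0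
      rw [← hw]
      have h2 : cj g (cj g w - c • (w : Matrix n n ℂ)) = c • (cj g w - c • (w : Matrix n n ℂ)) := by
        have := congrArg (fun t : z => (t : Matrix n n ℂ)) h1
        simp only [LinearMap.sub_apply, LinearMap.smul_apply, Module.End.one_apply, map_sub,
          map_smul, Submodule.coe_sub, Submodule.coe_smul, cjz_coe, Submodule.coe_zero] at this
        rw [cj_sub, cj_smul]
        exact sub_eq_zero.1 this
      have h3 := gen_step hg h2
      apply Subtype.ext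
      simp only [LinearMap.sub_apply, LinearMap.smul_apply, Module.End.one_apply,
        Submodule.coe_sub, Submodule.coe_smul, cjz_coe, Submodule.coe_zero]
      rw [h3, sub_self]
  have h1 : (cjz z hz - c • 1) v = 0 := by
    rcases k with _ | k
    · rw [pow_zero, Module.End.one_apply] at hk
      rw [hk, map_zero]
    · exact key k hk
  have := congrArg (fun t : z => (t : Matrix n n ℂ)) h1
  simp only [LinearMap.sub_apply, LinearMap.smul_apply, Module.End.one_apply,
    Submodule.coe_sub, Submodule.coe_smul, cjz_coe, Submodule.coe_zero] at this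
  exact sub_eq_zero.1 this

theorem span_eig (P : Submodule ℂ (Matrix n n ℂ))
    (hP : ∀ U ∈ z, ∀ c : ℂ, cj g U = c • U → U ∈ P) : z ≤ P := by
  have htop := Module.End.iSup_maxGenEigenspace_eq_top (cjz z hz)
  have h1 : (⊤ : Submodule ℂ z) ≤ P.comap z.subtype := by
    rw [← htop]
    refine iSup_le fun c => ?_
    intro v hv
    exact hP v v.2 c (gen_eig z hg hz c v hv)
  intro U hU
  exact h1 (show (⟨U, hU⟩ : z) ∈ ⊤ from trivial)

end span

/-- **The commutativity lemma.** -/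
theorem comm_of_fix (z : Submodule ℂ (Matrix n n ℂ)) (hstar : ∀ U ∈ z, Uᴴ ∈ z)
    (hbr : ∀ U ∈ z, ∀ V ∈ z, br U V ∈ z) {g : Matrix n n ℂ} (hg : gᴴ * g = 1)
    (hz : ∀ U ∈ z, cj g U ∈ z) (hfix : ∀ U ∈ z, cj g U = U → ∀ V ∈ z, br U V = 0) :
    ∀ U ∈ z, ∀ V ∈ z, br U V = 0 := by
  have h1 : ∀ U ∈ z, ∀ c : ℂ, cj g U = c • U → ∀ V ∈ z, br U V = 0 := by
    intro U hU c hc
    obtain ⟨P, hP⟩ : ∃ P : Submodule ℂ (Matrix n n ℂ), ∀ V, V ∈ P ↔ br U V = 0 := by
      refine ⟨⟨⟨⟨{V | br U V = 0}, ?_⟩, ?_⟩, ?_⟩, fun V => Iff.rfl⟩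
      · intro a b ha hb
        simp only [Set.mem_ofPred_eq, br] at ha hb ⊢
        rw [sub_eq_zero] at ha hb ⊢
        rw [Matrix.mul_add, Matrix.add_mul, ha, hb]
      · simp [br]
      · intro c x hx
        simp only [Set.mem_ofPred_eq, br] at hx ⊢
        rw [sub_eq_zero] at hx ⊢
        rw [Matrix.mul_smul, Matrix.smul_mul, hx]
    have h2 : z ≤ P := by
      refine span_eig z hg hz P fun V hV d hd => ?_
      rw [hP]
      exact eig_comm z hstar hbr hg hfix hU hV hc hd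
    intro V hV
    exact (hP V).1 (h2 hV)
  intro U hU V hV
  obtain ⟨P, hP⟩ : ∃ P : Submodule ℂ (Matrix n n ℂ), ∀ U, U ∈ P ↔ br U V = 0 := by
    refine ⟨⟨⟨⟨{U | br U V = 0}, ?_⟩, ?_⟩, ?_⟩, fun V => Iff.rfl⟩
    · intro a b ha hb
      simp only [Set.mem_ofPred_eq, br] at ha hb ⊢
      rw [sub_eq_zero] at ha hb ⊢
      rw [Matrix.mul_add, Matrix.add_mul, ha, hb]
    · simp [br]
    · intro c x hx
      simp only [Set.mem_ofPred_eq, br] at hx ⊢
      rw [sub_eq_zero] at hx ⊢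
      rw [Matrix.mul_smul, Matrix.smul_mul, hx]
  have h2 : z ≤ P := by
    refine span_eig z hg hz P fun U hU d hd => ?_
    rw [hP]
    exact h1 U hU d hd V hV
  exact (hP U).1 (h2 hU)

end Pool.Agent.ZH16.TIG
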