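import Mathlib

set_option autoImplicit false

/-! A lemma on elements of finite order. -/

namespace Pool.Agent.ZH16.TIG

theorem exists_coprime_lift (x y m : ℕ) (hm : 0 < m) (h : Nat.gcd (Nat.gcd x y) m = 1) :
    ∃ k : ℕ, Nat.Coprime (k * x + y) m := by
  classical
  refine ⟨∏ p ∈ m.primeFactors.filter (fun p => ¬ p ∣ y), p, ?_⟩
  rw [Nat.coprime_iff_gcd_eq_one]
  by_contra hne
  obtain ⟨p, hp, hpd⟩ := Nat.exists_prime_and_dvd hne
  have h1 : p ∣ (∏ p ∈ m.primeFactors.filter (fun p => ¬ p ∣ y), p) * x + y :=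
    hpd.trans (Nat.gcd_dvd_left _ _)
  have h2 : p ∣ m := hpd.trans (Nat.gcd_dvd_right _ _)
  by_cases hy : p ∣ y
  · have h3 : p ∣ (∏ p ∈ m.primeFactors.filter (fun p => ¬ p ∣ y), p) * x :=
      (Nat.dvd_add_left hy).1 h1
    rcases (Nat.Prime.dvd_mul hp).1 h3 with h4 | h4
    · obtain ⟨q, hq, hpq⟩ := (Prime.dvd_finset_prod_iff hp.prime _).1 h4
      rw [Finset.mem_filter, Nat.mem_primeFactors] at hq
      have : p = q := (Nat.prime_dvd_prime_iff_eq hp hq.1.1).1 hpq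
      subst this
      exact hq.2 hy
    · have : p ∣ Nat.gcd (Nat.gcd x y) m := Nat.dvd_gcd (Nat.dvd_gcd h4 hy) h2
      rw [h] at this
      exact hp.one_lt.ne' (Nat.dvd_one.1 this)
  · have h3 : p ∣ ∏ p ∈ m.primeFactors.filter (fun p => ¬ p ∣ y), p := by
      apply Finset.dvd_prod_of_mem (fun p => p)
      rw [Finset.mem_filter, Nat.mem_primeFactors]
      exact ⟨⟨hp, h2, hm.ne'⟩, hy⟩
    exact hy ((Nat.dvd_add_right (h3.mul_right x)).1 h1)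

/-- If `a`, `b` are nonzero complex numbers of finite order, then `(a ^ k b) ^ j a = 1` for some
`k`, `j`. -/
theorem exists_pow_pow (a b : ℂˣ) (ha : IsOfFinOrder a) (hb : IsOfFinOrder b) :
    ∃ k j : ℕ, (a ^ k * b) ^ j * a = 1 := by
  -- the subgroup generated by a and b is contained in the m-th roots of unity
  obtain ⟨m, hm⟩ : ∃ m : ℕ, m = orderOf a * orderOf b := ⟨_, rfl⟩
  have hmpos : 0 < m := by rw [hm]; exact Nat.mul_pos ha.orderOf_pos hb.orderOf_pos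
  have : NeZero m := ⟨hmpos.ne'⟩
  have ham : a ^ m = 1 := by rw [hm, pow_mul, pow_orderOf_eq_one, one_pow]
  have hbm : b ^ m = 1 := by rw [hm, mul_comm, pow_mul, pow_orderOf_eq_one, one_pow]
  obtain ⟨z, hz⟩ := (IsCyclic.exists_generator (α := rootsOfUnity m ℂ))
  have hza : (⟨a, (mem_rootsOfUnity m a).2 ham⟩ : rootsOfUnity m ℂ) ∈ Submonoid.powers z :=
    mem_powers_iff_mem_zpowers.2 (hz _)
  have hzb : (⟨b, (mem_rootsOfUnity m b).2 hbm⟩ : rootsOfUnity m ℂ) ∈ Submonoid.powers z :=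
    mem_powers_iff_mem_zpowers.2 (hz _)
  obtain ⟨x, hx⟩ := hza
  obtain ⟨y, hy⟩ := hzb
  obtain ⟨w, hw⟩ : ∃ w : ℂˣ, w = z := ⟨_, rfl⟩
  have hxa : w ^ x = a := by
    have := congrArg (fun t : rootsOfUnity m ℂ => (t : ℂˣ)) hx
    simpa [hw] using this
  have hyb : w ^ y = b := by
    have := congrArg (fun t : rootsOfUnity m ℂ => (t : ℂˣ)) hy
    simpa [hw] using this
  have hwm : w ^ m = 1 := by
    rw [hw]
    exact (mem_rootsOfUnity m _).1 z.2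
  -- divide out the gcd
  obtain ⟨d, hd⟩ : ∃ d : ℕ, d = Nat.gcd (Nat.gcd x y) m := ⟨_, rfl⟩
  have hdpos : 0 < d := by rw [hd]; exact Nat.gcd_pos_of_pos_right _ hmpos
  obtain ⟨x', hx'⟩ : d ∣ x := by
    rw [hd]; exact (Nat.gcd_dvd_left _ _).trans (Nat.gcd_dvd_left _ _)
  obtain ⟨y', hy'⟩ : d ∣ y := by
    rw [hd]; exact (Nat.gcd_dvd_left _ _).trans (Nat.gcd_dvd_right _ _)
  obtain ⟨m', hm'⟩ : d ∣ m := by rw [hd]; exact Nat.gcd_dvd_right _ _
  have hm'pos : 0 < m' := by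
    rcases Nat.eq_zero_or_pos m' with h | h
    · rw [h, mul_zero] at hm'; omega
    · exact h
  have hgcd : Nat.gcd (Nat.gcd x' y') m' = 1 := by
    have h1 : d * Nat.gcd (Nat.gcd x' y') m' = d * 1 := by
      rw [← Nat.gcd_mul_left, ← Nat.gcd_mul_left, ← hx', ← hy', ← hm', ← hd, mul_one]
    exact Nat.eq_of_mul_eq_mul_left hdpos h1
  obtain ⟨k, hk⟩ := exists_coprime_lift x' y' m' hm'pos hgcd
  obtain ⟨v, hv⟩ : ∃ v : ℂˣ, v = w ^ d := ⟨_, rfl⟩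
  have hva : v ^ x' = a := by rw [hv, ← pow_mul, ← hx', hxa]
  have hvb : v ^ y' = b := by rw [hv, ← pow_mul, ← hy', hyb]
  have hvm : v ^ m' = 1 := by rw [hv, ← pow_mul, ← hm', hwm]
  -- find j with j (k x' + y') + x' ≡ 0 mod m'
  have : NeZero m' := ⟨hm'pos.ne'⟩
  obtain ⟨u, hu⟩ : IsUnit ((k * x' + y' : ℕ) : ZMod m') := (ZMod.isUnit_iff_coprime _ _).2 hk
  obtain ⟨j, hj⟩ : ∃ j : ℕ, (j : ZMod m') = -(x' : ZMod m') * (u⁻¹ : (ZMod m')ˣ) :=
    ⟨(-(x' : ZMod m') * (u⁻¹ : (ZMod m')ˣ)).val, ZMod.natCast_zmod_val _⟩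
  refine ⟨k, j, ?_⟩
  have h0 : (((k * x' + y') * j + x' : ℕ) : ZMod m') = 0 := by
    rw [Nat.cast_add, Nat.cast_mul, ← hu, hj]
    have : (u : ZMod m') * (-(x' : ZMod m') * (u⁻¹ : (ZMod m')ˣ)) = -(x' : ZMod m') := by
      calc (u : ZMod m') * (-(x' : ZMod m') * (u⁻¹ : (ZMod m')ˣ))
          = -(x' : ZMod m') * ((u : ZMod m') * (u⁻¹ : (ZMod m')ˣ)) := by ring
        _ = _ := by rw [Units.mul_inv, mul_one]
    rw [this]
    ring
  obtain ⟨c, hc⟩ := (ZMod.natCast_eq_zero_iff _ _).1 h0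
  rw [← hva, ← hvb, ← pow_mul, ← pow_add, ← pow_mul, ← pow_add]
  rw [show (x' * k + y') * j + x' = m' * c by rw [← hc]; ring, pow_mul, hvm, one_pow]

end Pool.Agent.ZH16.TIG
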